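import Pool.Agent.H20.SolidMain

set_option autoImplicit false

open Pool.Agent.H20.Solid

/-- There is a simple cubic graph on twelve vertices that is a solid brick, has no nontrivial
separating cut, and is not odd-intercyclic: it has two vertex-disjoint odd cycles. -/
theorem Pool.Agent.Results.MP_c2f3ae_co.CubicSolidBrick.result :
    ∃ G : MGraph (Fin 12) (Fin 18), G.Simple ∧ G.Cubic ∧ G.Brick ∧ G.SolidGraph ∧
      (∀ X : Set (Fin 12), Odd X.ncard → G.Separating X → MGraph.Trivial X) ∧
      ¬ G.OddIntercyclic :=
  ⟨G12, simple_G12, cubic_G12, brick_G12, solid_G12, no_separating_G12, not_oddIntercyclic_G12⟩
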